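import Pool.Agent.H90.HW.Stmts

/-! # Shift of the Euler products (module Shift of the market hwb) -/

set_option autoImplicit false

namespace Pool.Agent.H90.HW

open Complex

theorem shift : SShift := by
  intro μ ν h w s
  unfold Lfun
  congr 1
  funext p
  have hp0 : ((p : ℕ) : ℂ) ≠ 0 := by exact_mod_cast p.2.ne_zero
  have hpR : (0 : ℝ) < ((p : ℕ) : ℝ) := by exact_mod_cast p.2.pos
  have hinj : Function.Injective (fun α : ℂ => ((p : ℕ) : ℂ) * α) := mul_right_injective₀ hp0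
  have e : ν p = Finsupp.mapDomain (fun α : ℂ => ((p : ℕ) : ℂ) * α) (μ p) := by
    ext β
    have hβ : β = ((p : ℕ) : ℂ) * (β / ((p : ℕ) : ℂ)) := by field_simp
    rw [hβ, h p, Finsupp.mapDomain_apply hinj]
  rw [e, Finsupp.prod_mapDomain_index_inj hinj]
  refine Finsupp.prod_congr ?_
  intro α _
  have e1 : ‖((p : ℕ) : ℂ) * α‖ = ((p : ℕ) : ℝ) * ‖α‖ := by
    rw [norm_mul, Complex.norm_natCast]
  have e2 : ((p : ℕ) : ℝ) ^ (((w + 2 : ℤ) : ℝ) / 2) = ((p : ℕ) : ℝ) * ((p : ℕ) : ℝ) ^ ((w : ℝ) / 2) := by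
    have : (((w + 2 : ℤ) : ℝ) / 2) = 1 + (w : ℝ) / 2 := by push_cast; ring
    rw [this, Real.rpow_add hpR, Real.rpow_one]
  have e3 : (‖((p : ℕ) : ℂ) * α‖ = ((p : ℕ) : ℝ) ^ (((w + 2 : ℤ) : ℝ) / 2)) ↔
      (‖α‖ = ((p : ℕ) : ℝ) ^ ((w : ℝ) / 2)) := by
    rw [e1, e2]
    exact mul_right_inj' hpR.ne'
  have e4 : ((p : ℕ) : ℂ) * α * ((p : ℕ) : ℂ) ^ (-s) = α * ((p : ℕ) : ℂ) ^ (-(s - 1)) := by
    have : -(s - 1) = 1 + -s := by ring
    rw [this, Complex.cpow_add _ _ hp0, Complex.cpow_one]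
    ring
  simp only [e3, e4]

end Pool.Agent.H90.HW
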